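import Pool.Agent.P.MP_5e916a_al.DL.Rng

/-!
The dual of an abelian normal subgroup.
-/

namespace Pool.Agent.P.MP_5e916a_al.DL

open scoped commutatorElement IsMulCommutative

variable {G : Type} [Group G]

/-- The iterated commutator of `A` with `Z`. -/
def ch (Z A : Subgroup G) : ℕ → Subgroup G
  | 0 => A
  | j + 1 => ⁅Z, ch Z A j⁆

theorem ch_le (Z A : Subgroup G) [A.Normal] (j : ℕ) : ch Z A j ≤ A := by
  induction j with
  | zero => exact le_rfl
  | succ j ih => exact (Subgroup.commutator_mono le_rfl ih).trans (Subgroup.commutator_le_right _ _)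

theorem ch_map {T : Type} [Group T] (φ : G →* T) (Z A : Subgroup G) (j : ℕ) :
    ch (Z.map φ) (A.map φ) j = (ch Z A j).map φ := by
  induction j with
  | zero => rfl
  | succ j ih => rw [ch, ch, ih, Subgroup.map_commutator]

theorem ch_lcs (Z A : Subgroup G) (j : ℕ) : ch Z A j ≤ (⊤ : Subgroup G).lowerCentralSeries j := by
  induction j with
  | zero => exact le_top
  | succ j ih => exact (Subgroup.commutator_comm _ _).le.trans (Subgroup.commutator_mono ih le_top)

variable (A : Subgroup G) [hA : A.Normal]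

/-- The linear characters of `A`. -/
def Dl (A : Subgroup G) := Additive (A →* ℂˣ)

noncomputable instance (A : Subgroup G) : AddCommGroup (Dl A) :=
  inferInstanceAs (AddCommGroup (Additive (A →* ℂˣ)))

/-- The underlying homomorphism. -/
def Dl.toMul {A : Subgroup G} (f : Dl A) : A →* ℂˣ := f

theorem Dl.ext {A : Subgroup G} {f g : Dl A} (h : ∀ a, f.toMul a = g.toMul a) : f = g :=
  MonoidHom.ext h

theorem Dl.sub_apply {A : Subgroup G} (f g : Dl A) (a : A) :
    (f - g).toMul a = f.toMul a / g.toMul a := rfl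

/-- The action on the linear characters of `A`. -/
noncomputable def dr : G →* Module.End ℤ (Dl A) where
  toFun g := AddMonoidHom.toIntLinearMap
    { toFun := fun f => (f.toMul.comp (MulAut.conjNormal g⁻¹).toMonoidHom : A →* ℂˣ)
      map_zero' := rfl
      map_add' := fun _ _ => rfl }
  map_one' := LinearMap.ext fun f => Dl.ext fun a => congrArg f.toMul (by simp)
  map_mul' g h := LinearMap.ext fun f => Dl.ext fun a => congrArg f.toMul (by simp)

theorem dr_apply (g : G) (f : Dl A) (a : A) :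
    (dr A g f).toMul a = f.toMul (MulAut.conjNormal g⁻¹ a) := rfl

theorem dr_comm (g : G) (f : Dl A) {a : G} (ha : a ∈ A) (h : ⁅g, a⁆ ∈ A) :
    f.toMul ⟨_, h⟩ = ((dr A g⁻¹ - 1) f).toMul ⟨a, ha⟩ := by
  rw [LinearMap.sub_apply, Dl.sub_apply, dr_apply, inv_inv, Module.End.one_apply, ← map_div]
  exact congrArg _ (Subtype.ext (by simp [commutatorElement_def, div_eq_mul_inv]))

theorem dr_cent {g : G} (h : g ∈ Subgroup.centralizer (A : Set G)) : dr A g = 1 := by
  refine LinearMap.ext fun f => Dl.ext fun a => congrArg f.toMul (Subtype.ext ?_)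
  simp [mul_assoc, h a a.2]

/-- The common kernel of a group of linear characters. -/
def perp (A : Subgroup G) (W : AddSubgroup (Dl A)) : Subgroup G where
  carrier := {a | ∃ h : a ∈ A, ∀ f ∈ W, f.toMul ⟨a, h⟩ = 1}
  one_mem' := ⟨one_mem _, fun f _ => map_one f.toMul⟩
  mul_mem' := fun ⟨h, e⟩ ⟨h', e'⟩ => ⟨mul_mem h h', fun f hf =>
    (map_mul f.toMul ⟨_, h⟩ ⟨_, h'⟩).trans (by rw [e f hf, e' f hf, mul_one])⟩
  inv_mem' := fun ⟨h, e⟩ => ⟨inv_mem h, fun f hf =>
    (map_inv f.toMul ⟨_, h⟩).trans (by rw [e f hf, inv_one])⟩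

variable {A}

theorem perp_normal {W : AddSubgroup (Dl A)} (hW : ∀ g, ∀ w ∈ W, dr A g w ∈ W) :
    (perp A W).Normal := ⟨fun a ⟨h, e⟩ g => ⟨hA.conj_mem a h g, fun f hf =>
  (congrArg f.toMul (Subtype.ext (by simp))).trans
    ((dr_apply A g⁻¹ f ⟨a, h⟩).symm.trans (e _ (hW _ f hf)))⟩⟩

theorem comm_mem (g : G) {a : G} (ha : a ∈ A) : ⁅g, a⁆ ∈ A :=
  mul_mem (hA.conj_mem a ha g) (inv_mem ha)

theorem perp_ct {W : AddSubgroup (Dl A)} {g a : G} (hg : g ∈ ct (dr A) W) (ha : a ∈ A) :
    ⁅g, a⁆ ∈ perp A W := ⟨comm_mem g ha, fun f hf => by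
  rw [dr_comm A g f ha, LinearMap.sub_apply, inv_mem hg f hf, Module.End.one_apply, sub_self]
  rfl⟩

theorem ch_perp (Z : Subgroup G) (j : ℕ) :
    ∀ W : AddSubgroup (Dl A), ch Z A j ≤ perp A W ↔ Kl (dr A) Z j W := by
  induction j with
  | zero =>
    refine fun W => ⟨fun h l hl _ w hw => ?_, fun h a ha => ⟨ha, fun f hf => ?_⟩⟩
    · rw [List.length_eq_zero_iff.1 hl]
      exact Dl.ext fun a => (h a.2).2 w hw
    · rw [show f = 0 from h [] rfl (by simp) f hf]; rfl
  | succ j ih =>
    refine fun W => ⟨fun h l hl hz w hw => ?_, fun h => Subgroup.commutator_le.2 fun z hz a ha =>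
      ⟨comm_mem z (ch_le Z A j ha), fun f hf => ?_⟩⟩
    · obtain ⟨l, z, rfl⟩ := (List.eq_nil_or_concat' l).resolve_left fun e => by simp [e] at hl
      have h1 := List.forall_mem_append.1 hz
      rw [op_append]
      refine (ih (W.map (dr A z - 1).toAddMonoidHom)).1 (fun a ha => ⟨ch_le Z A j ha, ?_⟩) l
        (by simpa using hl) h1.1 _ ⟨w, hw, by simp [op]⟩
      rintro _ ⟨f, hf, rfl⟩
      obtain ⟨h2, h3⟩ := h (Subgroup.commutator_mem_commutator (inv_mem (h1.2 z (by simp))) ha)
      have := h3 f hf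
      rwa [dr_comm A _ f (ch_le Z A j ha), inv_inv] at this
    · rw [dr_comm A z f (ch_le Z A j ha)]
      refine ((ih (W.map (dr A z⁻¹ - 1).toAddMonoidHom)).2 ?_ ha).2 _ ⟨f, hf, rfl⟩
      rintro l hl hz' _ ⟨w, hw, rfl⟩
      have := h (l ++ [z⁻¹]) (by simp [hl])
        (List.forall_mem_append.2 ⟨hz', by simpa using hz⟩) w hw
      rw [op_append] at this
      simpa [op] using this

omit hA

theorem dual_card (H : Type) [CommGroup H] [Finite H] : Nat.card (H →* ℂˣ) = Nat.card H :=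
  CommGroup.card_monoidHom_of_hasEnoughRootsOfUnity H ℂ

theorem dual_fin (H : Type) [CommGroup H] [Finite H] : Finite (H →* ℂˣ) :=
  Nat.finite_of_card_ne_zero (by rw [dual_card]; exact Nat.card_pos.ne')

variable [Finite G] [IsMulCommutative A]

theorem dl_card : Nat.card (Dl A) = Nat.card A := dual_card A

instance : Finite (Dl A) := dual_fin A

theorem perp_top : perp A ⊤ = ⊥ := eq_bot_iff.2 fun a ⟨h, e⟩ => by
  by_contra h1
  obtain ⟨f, hf⟩ := CommGroup.exists_apply_ne_one_of_hasEnoughRootsOfUnity A ℂ (a := ⟨a, h⟩)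
    fun e => h1 (congrArg Subtype.val e)
  exact hf (e f trivial)

theorem perp_index (W : AddSubgroup (Dl A)) : (perp A W).relIndex A ≤ Nat.card W := by
  let ψ : A →* (Multiplicative W →* ℂˣ) :=
    { toFun := fun a => ⟨⟨fun w => w.toAdd.1.toMul a, rfl⟩, fun _ _ => rfl⟩
      map_one' := MonoidHom.ext fun w => map_one w.toAdd.1.toMul
      map_mul' := fun a b => MonoidHom.ext fun w => map_mul w.toAdd.1.toMul a b }
  have := dual_fin (Multiplicative W)
  refine (Subgroup.index_antitone (show ψ.ker ≤ (perp A W).subgroupOf A from fun a ha =>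
    ⟨a.2, fun f hf => DFunLike.congr_fun ha (Multiplicative.ofAdd ⟨f, hf⟩)⟩)).trans ?_
  rw [Subgroup.index_ker]
  exact ψ.range.card_le_card_group.trans_eq (dual_card (Multiplicative W))

end Pool.Agent.P.MP_5e916a_al.DL
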