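import Pool.Agent.P.MP_5e916a_al.A.Fin
import Pool.Agent.P.MP_5e916a_al.DL.Dual

/-!
Characters of a group with an abelian normal subgroup.
-/

namespace Pool.Agent.P.MP_5e916a_al.DL

open Pool.Agent.P.MP_b1ffdf_al Classical Finset
open scoped commutatorElement

variable {G : Type} [Group G] [Fintype G]

theorem irr_desc {χ : G → ℂ} (hχ : IsIrr χ) (K : Subgroup G) [K.Normal] [Fintype (G ⧸ K)]
    (hK : K = kr χ) : ∃ ψ : G ⧸ K → ℂ, IsIrr ψ ∧ ψ ∘ QuotientGroup.mk' K = χ ∧ kr ψ = ⊥ := by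
  obtain ⟨V, rfl⟩ := hχ.isChar
  have hs := QuotientGroup.mk'_surjective K
  let ρ : Representation ℂ (G ⧸ K) V := QuotientGroup.lift K V.ρ fun g hg =>
    rho_one V fun j => kr_one (pow_mem (hK.le hg) j)
  obtain ⟨η, h1, -, h2⟩ := exists_con (isChar_of_rep ρ).isClass
    ((ipL 1 V.character).comp (LinearMap.funLeft ℂ ℂ (QuotientGroup.mk' K))) (by
      change ip (V.character * 1) V.character ≠ 0
      rw [mul_one, (isIrr_iff.1 hχ).2]
      exact one_ne_zero)
  change ip (η ∘ QuotientGroup.mk' K * 1) V.character ≠ 0 at h2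
  rw [mul_one, (irr_lift _ hs h1).ip_eq hχ] at h2
  have h3 : η ∘ QuotientGroup.mk' K = V.character := by by_contra e; exact h2 (if_neg e)
  refine ⟨η, h1, h3, Subgroup.comap_injective hs ?_⟩
  rw [← kr_comp _ hs, h3, ← hK, MonoidHom.comap_bot, QuotientGroup.ker_mk']

theorem exists_con1 {F : G → ℂ} (hF : IsChar F) (h : 1 ≤ dg F) : ∃ U, IsIrr U ∧ ip F U ≠ 0 := by
  obtain ⟨U, h1, h2, -⟩ := exists_con hF.isClass (LinearMap.proj 1) fun e : F 1 = 0 => by
    rw [dg, e] at h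
    norm_num at h
  exact ⟨U, h1, h2⟩

theorem dg_ab (h : ∀ a b : G, a * b = b * a) {θ : G → ℂ} (hθ : IsIrr θ) : dg θ ≤ 1 := by
  obtain ⟨f1, f2⟩ := irr_dg hθ
  have on : ∀ z, θ z * θ z⁻¹ = dg θ ^ 2 := fun z => by
    obtain ⟨c, e⟩ := scalar hθ (z := z) fun g => by simp [h z g, one_mem]
    have e1 := e 1
    have e2 := e z⁻¹
    rw [mul_one] at e1
    rw [mul_inv_cancel] at e2
    rw [e1, mul_right_comm, ← e2, f2, sq]
  have h4 := (isIrr_iff.1 hθ).2
  simp only [ip, on, Finset.sum_const, card_univ, nsmul_eq_mul, ← Nat.card_eq_fintype_card,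
    inv_mul_cancel_left₀ (card_ne (G := G))] at h4
  have h5 : dg θ ^ 2 = 1 := by exact_mod_cast h4
  nlinarith

theorem step_b (A : Subgroup G) [IsMulCommutative A] {χ : G → ℂ} (hχ : IsIrr χ) (h : kr χ = ⊥) :
    Nat.card A ≤ cod χ := by
  obtain ⟨θ, h1, h2⟩ := exists_con1 (hχ.isChar.comp A.subtype) (irr_dg hχ).1
  have h3 := (natC_ind A h1.isChar).dg_le hχ (by rwa [frob _ _ hχ.isChar.isClass, ip_comm])
  have h4 := dg_ab (fun a b => mul_comm' a b) h1
  rw [dg, dg, ind_one, re_nat_mul] at h3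
  rw [cod, h, Subgroup.index_bot, le_div_iff₀ (zero_lt_one.trans_le (irr_dg hχ).1),
    ← A.card_mul_index, Nat.cast_mul]
  exact mul_le_mul_of_nonneg_left (h3.trans (mul_le_of_le_one_right (Nat.cast_nonneg _) h4))
    (Nat.cast_nonneg _)

theorem perm_char (A : Subgroup G) [A.Normal] : ∃ π : G → ℂ, IsChar π ∧ dg π = Nat.card A ∧
    kr π = Subgroup.centralizer (A : Set G) := by
  let ρ : Representation ℂ G (A → ℂ) :=
    { toFun := fun g => LinearMap.funLeft ℂ ℂ (MulAut.conjNormal g⁻¹)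
      map_one' := by ext; simp
      map_mul' := fun g h => by ext; simp [LinearMap.funLeft] }
  refine ⟨_, isChar_of_rep ρ, by simp [dg, Representation.character], le_antisymm
    (fun g hg a ha => ?_) fun g hg x => ?_⟩
  · have h1 : ρ g = 1 := rho_one (FDRep.of ρ) fun j => kr_one (pow_mem hg j)
    have h2 : Pi.single (M := fun _ => ℂ) (⟨a, ha⟩ : A) 1 (MulAut.conjNormal g⁻¹ ⟨a, ha⟩) =
        Pi.single (M := fun _ => ℂ) (⟨a, ha⟩ : A) 1 ⟨a, ha⟩ :=
      congrFun (LinearMap.congr_fun h1 (Pi.single ⟨a, ha⟩ 1)) ⟨a, ha⟩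
    rw [Pi.single_eq_same] at h2
    have h3 : MulAut.conjNormal g⁻¹ (⟨a, ha⟩ : A) = ⟨a, ha⟩ := by
      by_contra e
      rw [Pi.single_eq_of_ne e] at h2
      exact zero_ne_one h2
    have h4 : g⁻¹ * a * g⁻¹⁻¹ = a := congrArg Subtype.val h3
    rw [inv_inv, mul_assoc, inv_mul_eq_iff_eq_mul] at h4
    exact h4
  · have h1 : ρ g = 1 := LinearMap.ext fun f => funext fun a => congrArg f (Subtype.ext (by
      simp [mul_assoc, hg a a.2]))
    simp only [Representation.character, map_mul, h1, one_mul]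

theorem step_d (A : Subgroup G) [A.Normal] [IsMulCommutative A] {χ : G → ℂ} (hχ : IsIrr χ)
    (h0 : kr χ = ⊥) {n : ℝ} (h1 : 1 < n) (h2 : dg χ ≤ n) (h3 : Nat.card A ≤ n) {X : Finset ℝ}
    (hX : ∀ χ : G → ℂ, IsIrr χ → cod χ ∈ X) {k : ℕ} (hk : X.card ≤ k) {ψ : G → ℂ} (hψ : IsIrr ψ)
    (h4 : Subgroup.centralizer (A : Set G) ≤ kr ψ) : dg ψ ≤ n ^ (3 * k) := by
  by_contra hb
  obtain ⟨π, p1, p2, p3⟩ := perm_char A
  obtain ⟨m, hm⟩ := burnside p1 hψ (p3 ▸ h4)
  have c0 : 0 < n := by linarith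
  have h5 : ∀ j ≤ k, ∃ U : G → ℂ, IsIrr U ∧ kr U = ⊥ ∧ n ^ (3 * j) ≤ n * dg U ∧
      n * dg U < n ^ (3 * (j + 1)) := fun j hj => by
    obtain ⟨η, a1, a2, a3, a4⟩ := interp p1 (p2.trans_le h3) h1 m ψ hψ hm (n ^ (3 * j))
      (one_le_pow₀ h1.le) ((pow_le_pow_right₀ h1.le (by omega)).trans (not_le.1 hb).le)
    have hc := a1.isChar.mul hχ.isChar
    have q1 := (irr_dg a1).1
    have q2 := (irr_dg hχ).1
    obtain ⟨U, b1, b2⟩ := exists_con1 hc (by rw [dg_mul a1.isChar hχ.isChar]; nlinarith)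
    have q3 := (irr_dg b1).1
    have b3 : ∀ g ∈ kr U, g ∈ Subgroup.centralizer (A : Set G) → g = 1 := fun g hg hg' => by
      rw [mul_comm, ip_move] at b2
      refine h0.le ((natC_char (b1.isChar.mul a1.isChar.dual)).mem_kr hχ b2 ?_)
      rw [Pi.mul_apply, Pi.mul_apply, kr_one hg, kr_one (a2 (p3.ge (inv_mem hg'))), inv_one]
    refine ⟨U, b1, eq_bot_iff.2 fun g hg => b3 g hg fun a ha => ?_, ?_, ?_⟩
    · refine commutatorElement_eq_one_iff_mul_comm.1 (b3 _
        (mul_mem ((kr_normal b1.isChar.isClass).conj_mem g hg a) (inv_mem hg))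
        (Subgroup.le_centralizer A ?_))
      rw [← commutatorElement_inv]
      exact inv_mem (comm_mem g ha)
    · rw [ip_move] at b2
      have := (natC_char (b1.isChar.mul hχ.isChar.dual)).dg_le a1 b2
      rw [dg_mul b1.isChar hχ.isChar.dual] at this
      simp only [dg, inv_one] at this a3 h2 q3 ⊢
      nlinarith
    · have := (natC_char hc).dg_le b1 b2
      rw [dg_mul a1.isChar hχ.isChar] at this
      calc n * dg U ≤ n * (dg η * n) := by gcongr; exact this.trans (by gcongr)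
        _ < n * (n * n ^ (3 * j) * n) := by gcongr
        _ = _ := by ring
  choose! U u1 u2 u3 u4 using h5
  have h6 : ∀ i j, i < j → j ≤ k → cod (U j) < cod (U i) := fun i j hij hj => by
    rw [cod, cod, u2 j hj, u2 i (by omega), Subgroup.index_bot]
    refine div_lt_div_of_pos_left (by exact_mod_cast Nat.card_pos)
      (zero_lt_one.trans_le (irr_dg (u1 i (by omega))).1) (lt_of_mul_lt_mul_left ?_ c0.le)
    exact (u4 i (by omega)).trans_le ((pow_le_pow_right₀ h1.le (by omega)).trans (u3 j hj))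
  have h7 := Finset.card_le_card_of_injOn (s := range (k + 1)) (fun j => cod (U j))
    (fun j hj => hX _ (u1 j (Nat.lt_succ_iff.1 (Finset.mem_range.1 hj)))) fun i hi j hj e => by
      have hi' := Nat.lt_succ_iff.1 (Finset.mem_range.1 hi)
      have hj' := Nat.lt_succ_iff.1 (Finset.mem_range.1 hj)
      rcases lt_trichotomy i j with h | h | h
      · exact absurd e (h6 i j h hj').ne'
      · exact h
      · exact absurd e (h6 j i h hi').ne
  rw [Finset.card_range] at h7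
  omega

/-- An abelian normal subgroup `A` of a nilpotent group and `Z` central modulo `A`. -/
structure Su (Z A : Subgroup G) (X : Finset ℝ) : Prop where
  nA : A.Normal
  ab : IsMulCommutative A
  zc : ∀ z ∈ Z, ∀ g : G, ⁅g, z⁆ ∈ A
  nil : Group.IsNilpotent G
  hX : ∀ χ : G → ℂ, IsIrr χ → cod χ ∈ X

/-- There is an irreducible character of small codegree that sees the step `t`. -/
def Low (Z A : Subgroup G) (t : ℕ) (c : ℝ) : Prop :=
  ∃ χ : G → ℂ, IsIrr χ ∧ ¬ ch Z A t ≤ kr χ ∧ cod χ ≤ c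

variable {Z A : Subgroup G} {X : Finset ℝ} {T : Type} [Group T] [Fintype T] {φ : G →* T}

theorem Su.map (h : Su Z A X) (hφ : Function.Surjective φ) : Su (Z.map φ) (A.map φ) X :=
  have := h.ab
  have := h.nil
  ⟨h.nA.map φ hφ, inferInstance, by
    rintro _ ⟨z, hz, rfl⟩ g
    obtain ⟨g, rfl⟩ := hφ g
    exact ⟨_, h.zc z hz g, map_commutatorElement φ g z⟩, Group.nilpotent_of_surjective φ hφ,
    fun ψ hψ => cod_comp φ hφ ψ ▸ h.hX _ (irr_lift φ hφ hψ)⟩

theorem Low.lift (hφ : Function.Surjective φ) {t : ℕ} {c : ℝ}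
    (h : Low (Z.map φ) (A.map φ) t c) : Low Z A t c := by
  obtain ⟨χ, h1, h2, h3⟩ := h
  rw [ch_map, Subgroup.map_le_iff_le_comap, ← kr_comp φ hφ] at h2
  exact ⟨_, irr_lift φ hφ h1, h2, (cod_comp φ hφ χ).trans_le h3⟩

omit [Fintype G] in
theorem ch_quot {K : Subgroup G} [K.Normal] {t : ℕ} (h : ¬ ch Z A t ≤ K) :
    ch (Z.map (QuotientGroup.mk' K)) (A.map (QuotientGroup.mk' K)) t ≠ ⊥ := by
  rwa [ch_map, Ne, Subgroup.map_eq_bot_iff, QuotientGroup.ker_mk']

theorem step_c (h : Su Z A X) {t : ℕ} (ht : ch Z A (t + 1) ≠ ⊥) : ∃ χ : G → ℂ, IsIrr χ ∧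
    ¬ ch Z A t ≤ kr χ ∧ dg χ ≤ Nat.card A ∧
    (kr χ).index ≤ Nat.card A * (Subgroup.centralizer (A : Set G)).index := by
  have := h.nA
  obtain ⟨z, hz, x, hx, h1⟩ : ∃ z ∈ Z, ∃ x ∈ ch Z A t, x ∉ Subgroup.centralizer {z} := by
    by_contra e
    push Not at e
    exact ht (le_bot_iff.1 (Subgroup.commutator_le.2 fun z hz x hx =>
      commutatorElement_eq_one_iff_mul_comm.2
        (Subgroup.mem_centralizer_singleton_iff.1 (e z hz x hx)).symm))
  have h2 : (Subgroup.centralizer {z}).index ≤ Nat.card A := by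
    refine Nat.card_le_card_of_injective (fun q : G ⧸ Subgroup.centralizer {z} =>
      (⟨_, h.zc z hz q.out⟩ : A)) fun p q e => ?_
    rw [← p.out_eq, ← q.out_eq]
    refine QuotientGroup.eq.2 (Subgroup.mem_centralizer_singleton_iff.2 ?_)
    have h : p.out * z * p.out⁻¹ = q.out * z * q.out⁻¹ :=
      mul_right_cancel (congrArg Subtype.val e)
    calc p.out⁻¹ * q.out * z = p.out⁻¹ * (q.out * z * q.out⁻¹) * q.out := by group
      _ = _ := by rw [← h]; group
  obtain ⟨χ, c1, c2, c3, c4⟩ := exists_irr _ h1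
  refine ⟨χ, c1, fun e => c3 (e hx), c2.trans (by exact_mod_cast h2), (Subgroup.index_antitone
    (c4 (Subgroup.centralizer {z} ⊓ Subgroup.centralizer (A : Set G)) ⟨fun g hg y =>
      ⟨Subgroup.mem_centralizer_singleton_iff.2 ?_,
        Subgroup.Normal.conj_mem inferInstance g hg.2 y⟩⟩ inf_le_left)).trans
    (Subgroup.index_inf_le.trans (Nat.mul_le_mul_right _ h2))⟩
  have e1 : g * z = z * g := Subgroup.mem_centralizer_singleton_iff.1 hg.1
  have e2 := hg.2 _ (h.zc z hz y⁻¹)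
  calc y * g * y⁻¹ * z = y * (g * ⁅y⁻¹, z⁆) * z * y⁻¹ := by group
    _ = y * ⁅y⁻¹, z⁆ * (g * z) * y⁻¹ := by rw [← e2]; group
    _ = _ := by rw [e1]; group

end Pool.Agent.P.MP_5e916a_al.DL
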