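import Pool.Agent.P.MP_5e916a_al.DL.Chr

/-!
The nilpotency class is bounded in terms of the number of codegrees.
-/

namespace Pool.Agent.P.MP_5e916a_al.DL

open Pool.Agent.P.MP_b1ffdf_al Classical Finset
open scoped commutatorElement

section inner

variable {G : Type} [Group G] [Fintype G] {Z A : Subgroup G} {X : Finset ℝ} {k t : ℕ}

omit [Fintype G] in
theorem Su.hc (h : Su Z A X) [A.Normal] : ∀ z ∈ Z, ∀ g, Commute (dr A g) (dr A z) :=
  fun z hz g => by
    have := h.ab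
    have e := dr_cent A (A.le_centralizer (h.zc z hz g))
    rw [Commute, SemiconjBy, ← map_mul, ← map_mul, show g * z = ⁅g, z⁆ * (z * g) by group,
      map_mul, e, one_mul]

theorem card_map_le {T : Type} [Group T] (φ : G →* T) (A : Subgroup G) :
    Nat.card (A.map φ) ≤ Nat.card A := Nat.le_of_dvd Nat.card_pos (A.card_map_dvd φ)

theorem one_lt_card [A.Normal] (h : ch Z A t ≠ ⊥) : 1 < Nat.card A :=
  (Subgroup.one_lt_card_iff_ne_bot _).2 fun e => h (le_bot_iff.1 (e ▸ ch_le Z A t))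

theorem key1 (h : Su Z A X) (hk : X.card ≤ k) (ht : ch Z A (t + 1 + (t + 1)) ≠ ⊥) {χ : G → ℂ}
    (hχ : IsIrr χ) (h0 : kr χ = ⊥) {n : ℕ} (h2 : dg χ ≤ n) (h3 : Nat.card A ≤ n) :
    Low Z A t (n ^ (24 * k + 2)) := by
  have := h.nA
  have := h.ab
  have := h.nil
  have h1 : 1 < n := (one_lt_card ht).trans_le h3
  have hs := QuotientGroup.mk'_surjective (Subgroup.centralizer (A : Set G))
  have := Fintype.ofFinite (G ⧸ Subgroup.centralizer (A : Set G))
  obtain ⟨B, b1, b2, b3⟩ := abelian_normal all_CD (G := G ⧸ Subgroup.centralizer (A : Set G))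
    (c := 1) (F := ⊤) inferInstance inferInstance (by simp) (b := (n : ℝ) ^ (3 * k)) fun ψ hψ => by
      have := step_d A hχ h0 (n := n) (by exact_mod_cast h1) h2 (by exact_mod_cast h3) h.hX hk
        (irr_lift _ hs hψ) (by
          rw [kr_comp _ hs]
          exact (QuotientGroup.ker_mk' _).ge.trans (Subgroup.ker_le_comap _ _))
      rwa [dg, Function.comp_apply, map_one] at this
  rw [pow_one, pow_one, mul_le_mul_iff_left₀ (by exact_mod_cast Nat.card_pos), ← pow_mul,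
    ← Subgroup.index_comap_of_surjective _ hs] at b3
  obtain ⟨W, w1, w2, w3⟩ := halve h.hc (B := B.comap (QuotientGroup.mk' _)) (fun a ha b hb => by
    have e := dr_cent A (g := ⁅a, b⁆) ((QuotientGroup.eq_one_iff _).1 (by
      rw [← QuotientGroup.mk'_apply, map_commutatorElement]
      exact commutatorElement_eq_one_iff_mul_comm.2 (b2 _ ha _ hb)))
    rw [← map_mul, ← map_mul, show a * b = ⁅a, b⁆ * (b * a) by group, map_mul, e, one_mul])
    (t := t + 1) (by rw [← ch_perp, perp_top]; exact fun e => ht (le_bot_iff.1 e))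
  have := perp_normal w1
  have hq := QuotientGroup.mk'_surjective (perp A W)
  have := Fintype.ofFinite (G ⧸ perp A W)
  obtain ⟨η, e1, e2, -, e3⟩ := step_c (h.map hq) (ch_quot (by rwa [ch_perp]))
  refine Low.lift hq ⟨η, e1, e2, (cod_bounds e1).2.2.1.trans ?_⟩
  have h4 : ct (dr A) W ⊓ B.comap (QuotientGroup.mk' _) ≤ (Subgroup.centralizer
      (A.map (QuotientGroup.mk' (perp A W)) : Set (G ⧸ perp A W))).comap (QuotientGroup.mk' _) := by
    rintro g hg _ ⟨a, ha, rfl⟩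
    refine (commutatorElement_eq_one_iff_mul_comm.1 ?_).symm
    rw [← map_commutatorElement]
    exact (QuotientGroup.eq_one_iff _).2 (perp_ct hg.1 ha)
  have h5 := Subgroup.index_antitone h4
  rw [Subgroup.index_comap_of_surjective _ hq, ← Subgroup.relIndex_mul_index inf_le_right,
    Subgroup.inf_relIndex_right] at h5
  have h6 := e3.trans (Nat.mul_le_mul ((card_map_le _ A).trans h3) (h5.trans
    (Nat.mul_le_mul_right _ (w3.trans (dl_card.trans_le h3)))))
  calc ((kr η).index : ℝ) ≤ n * (n * (B.comap (QuotientGroup.mk' _)).index) := by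
        exact_mod_cast h6
    _ ≤ n * (n * n ^ (3 * k * (8 * 1))) := by gcongr
    _ = _ := by ring

theorem key2 (h : Su Z A X) (hk : X.card ≤ k) (ht : ch Z A (t + 1 + (t + 1) + 1) ≠ ⊥) :
    Low Z A t (Nat.card A ^ (24 * k + 2)) := by
  obtain ⟨χ, h1, h2, h3, -⟩ := step_c h ht
  have := kr_normal h1.isChar.isClass
  have := Fintype.ofFinite (G ⧸ kr χ)
  have hq := QuotientGroup.mk'_surjective (kr χ)
  obtain ⟨ψ, p1, p2, p3⟩ := irr_desc h1 (kr χ) rfl
  refine Low.lift hq (key1 (h.map hq) hk (ch_quot h2) p1 p3 ?_ (card_map_le _ A))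
  rwa [← p2, dg, Function.comp_apply, map_one] at h3

theorem desc1 (h : Su Z A X) (hk : X.card ≤ k)
    (ht : ch Z A ((24 * k + 2 + 1) * (t + 1 + (t + 1) + 1 + 1)) ≠ ⊥) :
    ∃ c : ℝ, c < Nat.card A ∧ Low Z A t c := by
  have := h.nA
  have := h.ab
  obtain ⟨L, hL⟩ := Subgroup.nilpotent_iff_lowerCentralSeries.1 h.nil
  obtain ⟨E, e1, e2, e3⟩ := layers h.hc ⟨L, (ch_perp Z L ⊤).1 ((ch_lcs Z A L).trans
    (hL.le.trans bot_le))⟩ (by rw [← ch_perp, perp_top]; exact fun e => ht (le_bot_iff.1 e))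
  have := perp_normal e1
  have hq := QuotientGroup.mk'_surjective (perp A E)
  have := Fintype.ofFinite (G ⧸ perp A E)
  have h1 := ch_quot ((ch_perp Z _ E).not.2 e2)
  have := (h.map hq).nA
  refine ⟨_, ?_, Low.lift hq (key2 (h.map hq) hk h1)⟩
  have h2 : Nat.card (A.map (QuotientGroup.mk' (perp A E))) ≤ Nat.card E := by
    rw [← Subgroup.relIndex_ker, QuotientGroup.ker_mk']
    exact perp_index E
  exact_mod_cast (Nat.pow_lt_pow_right (one_lt_card h1) (Nat.lt_succ_self _)).trans_le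
    ((Nat.pow_le_pow_left h2 _).trans (e3.trans_eq dl_card))

theorem desc2 (h : Su Z A X) (hk : X.card ≤ k) {χ : G → ℂ} (hχ : IsIrr χ)
    (ht : ¬ ch Z A ((24 * k + 2 + 1) * (t + 1 + (t + 1) + 1 + 1)) ≤ kr χ) :
    ∃ η : G → ℂ, IsIrr η ∧ ¬ ch Z A t ≤ kr η ∧ cod η < cod χ := by
  have := kr_normal hχ.isChar.isClass
  have := Fintype.ofFinite (G ⧸ kr χ)
  have hq := QuotientGroup.mk'_surjective (kr χ)
  obtain ⟨ψ, p1, p2, p3⟩ := irr_desc hχ (kr χ) rfl
  obtain ⟨c, h1, h2⟩ := desc1 (h.map hq) hk (ch_quot ht)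
  obtain ⟨η, e1, e2, e3⟩ := h2.lift hq
  have := (h.map hq).ab
  exact ⟨η, e1, e2, e3.trans_lt (h1.trans_le ((step_b _ p1 p3).trans_eq
    ((cod_comp _ hq ψ).symm.trans (congrArg cod p2))))⟩

/-- The lengths after `i` descents. -/
def tt (k : ℕ) : ℕ → ℕ
  | 0 => 0
  | i + 1 => (24 * k + 2 + 1) * (tt k i + 1 + (tt k i + 1) + 1 + 1)

theorem inner (h : Su Z A X) (hk : X.card ≤ k) : ch Z A (tt k k) = ⊥ := by
  have h1 : ∀ i, ∀ χ : G → ℂ, IsIrr χ → ¬ ch Z A (tt k i) ≤ kr χ →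
      i < (X.filter (· ≤ cod χ)).card := fun i => by
    induction i with
    | zero => exact fun χ hχ _ => card_pos.2 ⟨_, mem_filter.2 ⟨h.hX χ hχ, le_rfl⟩⟩
    | succ i ih =>
      intro χ hχ ht
      obtain ⟨η, e1, e2, e3⟩ := desc2 h hk hχ ht
      refine (Nat.succ_le_of_lt (ih η e1 e2)).trans_lt (card_lt_card ⟨fun x hx => mem_filter.2
        ⟨(mem_filter.1 hx).1, (mem_filter.1 hx).2.trans e3.le⟩, fun e => ?_⟩)
      exact e3.not_ge (mem_filter.1 (e (mem_filter.2 ⟨h.hX χ hχ, le_rfl⟩))).2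
  refine eq_bot_iff.2 fun x hx => by_contra fun e => ?_
  obtain ⟨χ, c1, -, c2, -⟩ := exists_irr _ e
  exact (h1 k χ c1 fun e => c2 (e hx)).not_ge ((card_filter_le _ _).trans hk)

end inner

section outer

variable {G : Type} [Group G]

theorem three {H K L N : Subgroup G} [N.Normal] (h1 : ⁅⁅K, L⁆, H⁆ ≤ N) (h2 : ⁅⁅L, H⁆, K⁆ ≤ N) :
    ⁅⁅H, K⁆, L⁆ ≤ N := by
  rw [← QuotientGroup.ker_mk' N, ← Subgroup.map_eq_bot_iff, Subgroup.map_commutator,
    Subgroup.map_commutator] at h1 h2 ⊢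
  exact Subgroup.commutator_commutator_eq_bot_of_rotate h1 h2

instance ch_normal (Z A : Subgroup G) [Z.Normal] [A.Normal] (j : ℕ) : (ch Z A j).Normal := by
  induction j with
  | zero => exact ‹A.Normal›
  | succ j ih => exact Subgroup.commutator_normal _ _

theorem ch_mono (Z : Subgroup G) {A B : Subgroup G} (h : A ≤ B) (j : ℕ) : ch Z A j ≤ ch Z B j := by
  induction j with
  | zero => exact h
  | succ j ih => exact Subgroup.commutator_mono le_rfl ih

theorem ch_add (Z A : Subgroup G) (i j : ℕ) : ch Z (ch Z A i) j = ch Z A (i + j) := by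
  induction j with
  | zero => rfl
  | succ j ih => exact congrArg (⁅Z, ·⁆) ih

theorem ch_top (j : ℕ) : ch ⊤ ⊤ j = (⊤ : Subgroup G).lowerCentralSeries j := by
  induction j with
  | zero => rfl
  | succ j ih => rw [ch, ih, Subgroup.commutator_comm]; rfl

theorem ch_swap {Z A : Subgroup G} [Z.Normal] [A.Normal] [IsMulCommutative A]
    (h : ⁅(⊤ : Subgroup G), Z⁆ ≤ A)
    {Y : Subgroup G} [Y.Normal] (hY : Y ≤ A) (c : ℕ) : ch ⊤ ⁅Z, Y⁆ c ≤ ⁅Z, ch ⊤ Y c⁆ := by
  induction c with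
  | zero => exact le_rfl
  | succ c ih =>
    refine (Subgroup.commutator_mono le_rfl ih).trans ((Subgroup.commutator_comm _ _).le.trans
      (three ?_ ?_))
    · rw [Subgroup.commutator_comm, Subgroup.commutator_comm (ch ⊤ Y c)]
      exact le_rfl
    · exact (Subgroup.commutator_mono h ((ch_le ⊤ Y c).trans hY)).trans
        ((Subgroup.commutator_self_eq_bot_iff.2 ‹_›).le.trans bot_le)

theorem ch_steps {Z A : Subgroup G} [Z.Normal] [A.Normal] [IsMulCommutative A]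
    (h : ⁅(⊤ : Subgroup G), Z⁆ ≤ A)
    {c : ℕ} (hc : ch ⊤ A c ≤ ⁅Z, A⁆) (i : ℕ) : ch ⊤ A (i * c) ≤ ch Z A i := by
  have h1 : ∀ i, ch ⊤ (ch Z A i) c ≤ ch Z A (i + 1) := fun i => by
    induction i with
    | zero => exact hc
    | succ i ih => exact (ch_swap h (ch_le Z A i) c).trans (Subgroup.commutator_mono le_rfl ih)
  induction i with
  | zero => rw [zero_mul]; exact le_rfl
  | succ i ih => rw [Nat.succ_mul, ← ch_add]; exact (ch_mono ⊤ ih c).trans (h1 i)

theorem quot_le {N : Subgroup G} [N.Normal] {j : ℕ} (h : ch ⊤ ⊤ j = (⊥ : Subgroup (G ⧸ N))) :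
    ch ⊤ ⊤ j ≤ N := by
  rwa [← Subgroup.map_top_of_surjective _ (QuotientGroup.mk'_surjective N), ch_map,
    Subgroup.map_eq_bot_iff, QuotientGroup.ker_mk'] at h

theorem outer1 (k l : ℕ) : ∃ c, ∀ (G : Type) [Group G] [Fintype G] (A : Subgroup G) (X : Finset ℝ),
    Su ⊥ A X → X.card ≤ k → ch ⊤ ⊤ l ≤ A → ch ⊤ ⊤ c = (⊥ : Subgroup G) := by
  induction l with
  | zero => exact ⟨1, fun G _ _ A X h _ e => le_bot_iff.1 ((Subgroup.commutator_mono e e).trans
      (Subgroup.commutator_self_eq_bot_iff.2 h.ab).le)⟩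
  | succ l ih =>
    obtain ⟨c, hc⟩ := ih
    refine ⟨l + 1 + tt k k * (c + 1), fun G _ _ A X h hk e => ?_⟩
    have := h.nA
    have := h.ab
    obtain ⟨Z, z1, z2, z3⟩ : ∃ Z : Subgroup G, Z.Normal ∧ ch ⊤ ⊤ l ≤ Z ∧ ⁅(⊤ : Subgroup G), Z⁆ ≤ A :=
      ⟨_, inferInstance, le_rfl, e⟩
    have hq := QuotientGroup.mk'_surjective (⁅Z, A⁆ ⊔ ⁅Z, Z⁆)
    have := Fintype.ofFinite (G ⧸ (⁅Z, A⁆ ⊔ ⁅Z, Z⁆))
    have h1 := quot_le (hc _ (Z.map (QuotientGroup.mk' (⁅Z, A⁆ ⊔ ⁅Z, Z⁆))) X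
      ⟨z1.map _ hq, Subgroup.commutator_self_eq_bot_iff.1 (by
        rw [← Subgroup.map_commutator, Subgroup.map_eq_bot_iff, QuotientGroup.ker_mk']
        exact le_sup_right), fun z hz g => by simp [Subgroup.mem_bot.1 hz], (h.map hq).nil,
        (h.map hq).hX⟩ hk (by
        rw [← Subgroup.map_top_of_surjective _ hq, ch_map]
        exact Subgroup.map_mono z2))
    have h2 : ⁅(⊤ : Subgroup G), ⁅Z, A⁆ ⊔ ⁅Z, Z⁆⁆ ≤ ⁅Z, A⁆ := by
      have e1 : ⁅⁅Z, Z⁆, (⊤ : Subgroup G)⁆ ≤ ⁅Z, A⁆ := three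
        ((Subgroup.commutator_comm _ _).le.trans (Subgroup.commutator_mono le_rfl
          ((Subgroup.commutator_comm _ _).le.trans z3)))
        ((Subgroup.commutator_comm _ _).le.trans (Subgroup.commutator_mono le_rfl z3))
      have e2 : ⁅Z, A⁆ ⊔ ⁅Z, Z⁆ ≤ cz ⁅Z, A⁆ := sup_le
        (fun a ha g => Subgroup.commutator_le.1 (Subgroup.commutator_le_left _ ⊤) a ha g trivial)
        fun a ha g => Subgroup.commutator_le.1 e1 a ha g trivial
      rw [Subgroup.commutator_comm]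
      exact Subgroup.commutator_le.2 fun a ha g _ => e2 ha g
    have h3 := ch_steps z3 (c := c + 1) ((ch_mono ⊤ le_top _).trans
      ((Subgroup.commutator_mono le_rfl h1).trans h2)) (tt k k)
    rw [inner (Z := Z) ⟨h.nA, h.ab, fun z hz g => Subgroup.commutator_le.1 z3 g trivial z hz,
      h.nil, h.hX⟩ hk] at h3
    rw [← ch_add]
    exact le_bot_iff.1 ((ch_mono ⊤ e _).trans h3)

theorem outer2 (k d : ℕ) : ∃ c, ∀ (G : Type) [Group G] [Fintype G] [Group.IsNilpotent G]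
    (X : Finset ℝ), (∀ χ : G → ℂ, IsIrr χ → cod χ ∈ X) → X.card ≤ k → derivedSeries G d = ⊥ →
    ch ⊤ ⊤ c = (⊥ : Subgroup G) := by
  induction d with
  | zero => exact ⟨0, fun G _ _ _ _ _ _ e => e⟩
  | succ d ih =>
    obtain ⟨l, hl⟩ := ih
    obtain ⟨c, hc⟩ := outer1 k l
    refine ⟨c, fun G _ _ _ X hX hk e => ?_⟩
    have h : Su ⊥ (derivedSeries G d) X := ⟨inferInstance, Subgroup.commutator_self_eq_bot_iff.1 e,
      fun z hz g => by simp [Subgroup.mem_bot.1 hz], ‹_›, hX⟩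
    have hq := QuotientGroup.mk'_surjective (derivedSeries G d)
    have := Fintype.ofFinite (G ⧸ derivedSeries G d)
    refine hc G _ X h hk (quot_le (hl _ X (h.map hq).hX hk ?_))
    rw [← map_derivedSeries_eq hq, Subgroup.map_eq_bot_iff, QuotientGroup.ker_mk']

theorem final (k : ℕ) : ∃ c, ∀ (G : Type) [Group G] [Finite G] [Group.IsNilpotent G],
    Set.ncard {x : ℝ | ∃ V : FDRep ℂ G, CategoryTheory.Simple V ∧ x = (Nat.card G : ℝ) /
      Nat.card {g : G // V.character g = V.character 1} / Module.finrank ℂ V} ≤ k →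
    Group.nilpotencyClass G ≤ c := by
  obtain ⟨c, hc⟩ := outer2 k (132 * 1 * (k - 1))
  refine ⟨c, fun G _ _ _ hk => ?_⟩
  have := Fintype.ofFinite G
  have h1 := MP_5e916a_al.final G one_pos (big_nilpotent G)
  have h2 := derivedSeries_antitone G (Nat.mul_le_mul_left (132 * 1) (Nat.sub_le_sub_right hk 1))
  rw [h1] at h2
  have e : {x : ℝ | ∃ V : FDRep ℂ G, CategoryTheory.Simple V ∧ x = (Nat.card G : ℝ) /
      Nat.card {g : G // V.character g = V.character 1} / Module.finrank ℂ V} =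
      ((irrs G).image cod : Finset ℝ) := by
    ext x
    simp only [Set.mem_ofPred_eq, Finset.coe_image, Set.mem_image, Finset.mem_coe, mem_irrs]
    exact ⟨fun ⟨V, h, e⟩ => ⟨_, ⟨V, h, rfl⟩, (cod_eq V).trans e.symm⟩,
      fun ⟨_, ⟨V, h, rfl⟩, e⟩ => ⟨V, h, e.symm.trans (cod_eq V)⟩⟩
  rw [e, Set.ncard_coe_finset] at hk
  rw [← Subgroup.lowerCentralSeries_eq_bot_iff_nilpotencyClass_le, ← ch_top]
  exact hc G _ (fun χ h => Finset.mem_image_of_mem _ (mem_irrs.2 h)) hk (le_bot_iff.1 h2)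

end outer

end Pool.Agent.P.MP_5e916a_al.DL
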