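import Mathlib

/-!
Modules over a group with a normal subgroup that acts by commuting operators.
-/

namespace Pool.Agent.P.MP_5e916a_al.DL

theorem card_rel {M : Type} [AddCommGroup M] (X Y : AddSubgroup M) :
    X.relIndex Y * Nat.card (X ⊓ Y : AddSubgroup M) = Nat.card Y := by
  rw [← AddSubgroup.relIndex_bot_left, ← AddSubgroup.relIndex_bot_left Y,
    ← AddSubgroup.inf_relIndex_right X Y, mul_comm]
  exact AddSubgroup.relIndex_mul_relIndex _ _ _ bot_le inf_le_right

theorem card_rel' {M : Type} [AddCommGroup M] {X Y : AddSubgroup M} (h : X ≤ Y) :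
    X.relIndex Y * Nat.card X = Nat.card Y := by
  rw [← card_rel X Y, inf_eq_left.2 h]

theorem card_mul {M : Type} [AddCommGroup M] (X Y : AddSubgroup M) :
    Nat.card X * Nat.card Y =
      Nat.card (X ⊓ Y : AddSubgroup M) * Nat.card (X ⊔ Y : AddSubgroup M) := by
  rw [← card_rel X Y, ← card_rel' (le_sup_left : X ≤ X ⊔ Y), AddSubgroup.relIndex_sup_left]
  ring

section cd

variable {R : Type} [CommRing R] (P : Ideal R)

/-- The elements that multiply `I` into `P`. -/
def pp (I : Ideal R) : Ideal R where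
  carrier := {r | ∀ j ∈ I, r * j ∈ P}
  add_mem' ha hb j hj := by rw [add_mul]; exact add_mem (ha j hj) (hb j hj)
  zero_mem' j _ := by simp
  smul_mem' c r hr j hj := by rw [smul_eq_mul, mul_assoc]; exact P.mul_mem_left c (hr j hj)

theorem pp_anti {I J : Ideal R} (h : I ≤ J) : pp P J ≤ pp P I := fun _ hr j hj => hr j (h hj)

theorem le_pp (I : Ideal R) : I ≤ pp P (pp P I) := fun r hr j hj => mul_comm j r ▸ hj r hr

theorem card_mul' (X Y : Ideal R) : Nat.card X * Nat.card Y =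
    Nat.card (X ⊓ Y : Ideal R) * Nat.card (X ⊔ Y : Ideal R) := by
  have := card_mul X.toAddSubgroup Y.toAddSubgroup
  rw [← Submodule.sup_toAddSubgroup] at this
  exact this

variable [Finite R]

theorem card_mono' {X Y : Ideal R} (h : X ≤ Y) : Nat.card X ≤ Nat.card Y :=
  Nat.card_le_card_of_injective _ (Submodule.inclusion_injective h)

theorem cd : ∃ J : Ideal R, J ≤ pp P J ∧ pp P (pp P J) ≤ J ∧
    ∀ I : Ideal R, Nat.card I * Nat.card (pp P I) ≤ Nat.card J * Nat.card (pp P J) := by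
  let ms : Ideal R → ℕ := fun I => Nat.card I * Nat.card (pp P I)
  have hp : ∀ I, 0 < ms I := fun I => mul_pos Nat.card_pos Nat.card_pos
  obtain ⟨J, hJ, hm⟩ := exists_minimal_of_wellFoundedLT (fun J => ∀ I, ms I ≤ ms J)
    (Finite.exists_max ms)
  have h1 : ms J ≤ ms (pp P J) :=
    (mul_comm _ _).trans_le (Nat.mul_le_mul_left _ (card_mono' (le_pp P J)))
  have h2 : ms J * ms (pp P J) ≤ ms (J ⊓ pp P J) * ms (J ⊔ pp P J) := by
    have e1 := card_mul' J (pp P J)
    have e2 := card_mul' (pp P J) (pp P (pp P J))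
    have e3 : Nat.card (pp P J ⊓ pp P (pp P J) : Ideal R) ≤ Nat.card (pp P (J ⊔ pp P J)) :=
      card_mono' fun r hr j hj => by
        obtain ⟨a, ha, b, hb, rfl⟩ := Submodule.mem_sup.1 hj
        rw [mul_add]
        exact add_mem (hr.1 a ha) (hr.2 b hb)
    have e4 : Nat.card (pp P J ⊔ pp P (pp P J) : Ideal R) ≤ Nat.card (pp P (J ⊓ pp P J)) :=
      card_mono' (sup_le (pp_anti P inf_le_left) (pp_anti P inf_le_right))
    calc ms J * ms (pp P J) = _ := congrArg₂ (· * ·) e1 e2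
      _ ≤ _ := Nat.mul_le_mul_left _ (Nat.mul_le_mul e3 e4)
      _ = _ := by simp only [ms]; ring
  have h3 : ms J ≤ ms (J ⊓ pp P J) := Nat.le_of_mul_le_mul_right
    ((Nat.mul_le_mul_left _ h1).trans (h2.trans (Nat.mul_le_mul_left _ (hJ _)))) (hp J)
  refine ⟨J, (hm (fun I => (hJ I).trans h3) inf_le_left).trans inf_le_right, ?_, hJ⟩
  have h4 : Nat.card (pp P (pp P J)) ≤ Nat.card J :=
    Nat.le_of_mul_le_mul_left ((hJ (pp P J)).trans_eq (mul_comm _ _)) Nat.card_pos
  exact (SetLike.coe_injective (Set.Finite.eq_of_subset_of_card_le (Set.toFinite _)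
    (le_pp P J) h4)).ge

end cd

variable {G N : Type} [Group G] [AddCommGroup N] (ρ : G →* Module.End ℤ N)

theorem act_mul (g h : G) (v : N) : ρ (g * h) v = ρ g (ρ h v) := by rw [map_mul]; rfl

theorem act_inv {g : G} {v w : N} (h : ρ g v = w) : ρ g⁻¹ w = v := by
  rw [← h, ← act_mul, inv_mul_cancel, map_one]; rfl

/-- The vectors fixed by `H`. -/
def fx (H : Subgroup G) : AddSubgroup N where
  carrier := {v | ∀ h ∈ H, ρ h v = v}
  add_mem' ha hb h hh := by rw [map_add, ha h hh, hb h hh]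
  zero_mem' h _ := map_zero _
  neg_mem' ha h hh := by rw [map_neg, ha h hh]

/-- The elements that fix `M` pointwise. -/
def ct (M : AddSubgroup N) : Subgroup G where
  carrier := {g | ∀ v ∈ M, ρ g v = v}
  mul_mem' ha hb v hv := by rw [act_mul, hb v hv, ha v hv]
  one_mem' v _ := by rw [map_one]; rfl
  inv_mem' ha v hv := act_inv ρ (ha v hv)

/-- Subgroups of `B` that act on `M` have few fixed points. -/
def St (B : Subgroup G) (M : AddSubgroup N) : Prop :=
  ∀ H ≤ B, (ct ρ M).relIndex H ≤ (fx ρ H).relIndex M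

variable [Finite G] [Finite N]

theorem rel_ne (X Y : AddSubgroup N) : X.relIndex Y ≠ 0 := AddSubgroup.index_ne_zero_of_finite

theorem rel_ne' (X Y : Subgroup G) : X.relIndex Y ≠ 0 := Subgroup.index_ne_zero_of_finite

omit [Finite G] [Finite N] in
theorem cyc {R : Type} [CommRing R] [Finite R] (e : R →+* Module.End ℤ N) (B : Subgroup G)
    (hβ : ∀ b ∈ B, ∃ r, e r = ρ b) (v : N) : ∃ M, St ρ B M ∧
      ∀ r s : R, (∀ m ∈ M, e r m = 0) → (∀ m ∈ M, e s m = 0) → e (r * s) v = 0 := by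
  have em : ∀ r s : R, e (r * s) v = e r (e s v) := fun r s => by rw [map_mul]; rfl
  let Φ : R →+ N := ⟨⟨fun r => e r v, by simp⟩, by simp⟩
  let P : Ideal R :=
    { carrier := {r | e r v = 0}
      add_mem' := fun {a b} (ha : e a v = 0) (hb : e b v = 0) => by simp [ha, hb]
      zero_mem' := by simp
      smul_mem' := fun c r (hr : e r v = 0) => by
        show e (c * r) v = 0
        rw [em, hr, map_zero] }
  obtain ⟨J, h1, h2, h3⟩ := cd P
  choose! β hβ using hβ
  refine ⟨(pp P J).toAddSubgroup.map Φ, fun H hH => ?_, fun r s hr hs => ?_⟩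
  · let I : Ideal R := J ⊔ Ideal.span ((fun h => β h - 1) '' H)
    have i1 : J.toAddSubgroup ≤ I.toAddSubgroup := (le_sup_left : J ≤ I)
    have i2 : (pp P I).toAddSubgroup ≤ (pp P J).toAddSubgroup := pp_anti P le_sup_left
    have s1 : (ct ρ ((pp P J).toAddSubgroup.map Φ)).relIndex H ≤
        J.toAddSubgroup.relIndex I.toAddSubgroup := by
      refine Nat.card_le_card_of_injective (fun q => QuotientAddGroup.mk ⟨β q.out - 1,
        Ideal.mem_sup_right (Ideal.subset_span ⟨_, q.out.2, rfl⟩)⟩) fun p q h => ?_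
      rw [← p.out_eq, ← q.out_eq]
      refine QuotientGroup.eq.2 ?_
      rintro _ ⟨m, hm, rfl⟩
      have h4 : e (m * (-(β p.out - 1) + (β q.out - 1))) v = 0 := hm _ (QuotientAddGroup.eq.1 h)
      rw [mul_comm, em] at h4
      simp only [map_add, map_neg, map_sub, map_one, hβ _ (hH p.out.2), hβ _ (hH q.out.2),
        LinearMap.add_apply, LinearMap.neg_apply, LinearMap.sub_apply] at h4
      refine (act_mul ρ _ _ _).trans (act_inv ρ ?_)
      change ρ _ (e m v) = ρ _ (e m v)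
      linear_combination (norm := abel) -h4
    have s2 : J.toAddSubgroup.relIndex I.toAddSubgroup ≤
        (pp P I).toAddSubgroup.relIndex (pp P J).toAddSubgroup := by
      have h4 := h3 I
      have e1 := card_rel' i1
      have e2 := card_rel' i2
      change _ * Nat.card J = Nat.card I at e1
      change _ * Nat.card (pp P I) = Nat.card (pp P J) at e2
      rw [← e1, ← e2, mul_assoc, mul_left_comm (Nat.card J)] at h4
      exact Nat.le_of_mul_le_mul_right h4 (mul_pos Nat.card_pos Nat.card_pos)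
    refine s1.trans (s2.trans ?_)
    rw [← AddSubgroup.relIndex_comap, ← AddSubgroup.inf_relIndex_right (AddSubgroup.comap _ _)]
    refine AddSubgroup.relIndex_le_of_le_left (fun m hm => ?_)
      AddSubgroup.index_ne_zero_of_finite
    refine (sup_le (fun j hj => hm.2 j hj) (Ideal.span_le.2 ?_) :
      I ≤ Submodule.comap (LinearMap.mulLeft R m) P)
    rintro _ ⟨h, hh, rfl⟩
    change e (m * (β h - 1)) v = 0
    rw [mul_comm, em, map_sub, hβ h (hH hh), map_one, LinearMap.sub_apply]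
    exact sub_eq_zero.2 (hm.1 h hh)
  · have h4 : ∀ r : R, (∀ m ∈ (pp P J).toAddSubgroup.map Φ, e r m = 0) → r ∈ J := fun r hr =>
      h2 fun m hm => (em r m).trans (hr _ ⟨m, hm, rfl⟩)
    exact h1 (h4 r hr) s (h4 s hs)

theorem St.conj {B : Subgroup G} [hB : B.Normal] {M : AddSubgroup N} (h : St ρ B M) (y : G) :
    St ρ B (M.map (ρ y).toAddMonoidHom) := fun H hH => by
  have h1 := h (H.comap (MulAut.conj y).toMonoidHom) fun g hg => by
    simpa [mul_assoc] using hB.conj_mem' _ (hH hg) y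
  have h2 : ∀ g v, ρ ((MulAut.conj y).toMonoidHom g) (ρ y v) = ρ y (ρ g v) := fun g v => by
    rw [← act_mul, ← act_mul]
    simp
  rw [← Subgroup.map_comap_eq_self_of_surjective (f := (MulAut.conj y).toMonoidHom)
    (MulAut.conj y).surjective H, ← Subgroup.relIndex_comap,
    Subgroup.map_comap_eq_self_of_surjective (MulAut.conj y).surjective H,
    ← AddSubgroup.relIndex_comap]
  refine (Subgroup.relIndex_le_of_le_left (fun g hg => ?_) (rel_ne' _ _)).trans
    (h1.trans (AddSubgroup.relIndex_le_of_le_left (fun v hv g hg => ?_) (rel_ne _ _)))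
  · rintro _ ⟨m, hm, rfl⟩
    exact (h2 g m).trans (congrArg _ (hg m hm))
  · exact (act_inv ρ ((h2 g v).symm.trans (hv _ hg))).symm.trans (act_inv ρ rfl)

theorem greedy {B : Subgroup G} [B.Normal] {M : AddSubgroup N} (h : St ρ B M) :
    ∃ W : AddSubgroup N, (∀ g, ∀ w ∈ W, ρ g w ∈ W) ∧ M ≤ W ∧
      (ct ρ W).relIndex B ≤ Nat.card N := by
  obtain ⟨W, h1, h2⟩ := exists_maximal_of_wellFoundedGT
    (fun W : AddSubgroup N => (ct ρ W).relIndex B ≤ Nat.card W) ⟨⊥, by
      rw [Subgroup.relIndex_eq_one.2 fun g _ v hv => by rw [AddSubgroup.mem_bot.1 hv, map_zero]]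
      exact Nat.card_pos⟩
  have h3 : ∀ M', St ρ B M' → M' ≤ W := fun M' h' => le_sup_right.trans (h2 (y := W ⊔ M') (by
    have e1 : ct ρ M' ⊓ ct ρ W ≤ ct ρ (W ⊔ M') := fun g hg v hv => by
      obtain ⟨a, ha, b, hb, rfl⟩ := AddSubgroup.mem_sup.1 hv
      rw [map_add, hg.1 b hb, hg.2 a ha]
    refine (Subgroup.relIndex_le_of_le_left e1 (rel_ne' _ _)).trans ?_
    rw [← Subgroup.relIndex_inf_mul_relIndex, ← card_rel' (le_sup_left : W ≤ W ⊔ M'),
      AddSubgroup.relIndex_sup_left]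
    exact Nat.mul_le_mul ((h' _ inf_le_right).trans (AddSubgroup.relIndex_le_of_le_left
      (fun w hw g hg => hg.1 w hw) (rel_ne _ _))) h1) le_sup_left)
  refine ⟨⨅ g, W.comap (ρ g).toAddMonoidHom, fun g w hw => AddSubgroup.mem_iInf.2 fun g' => ?_,
    le_iInf fun g => AddSubgroup.map_le_iff_le_comap.1 (h3 _ (h.conj ρ g)),
    le_trans (Subgroup.relIndex_le_of_le_left (H := ct ρ W) ?_ (rel_ne' _ _))
      (h1.trans W.card_le_card_addGroup)⟩
  · exact (act_mul ρ g' g w ▸ AddSubgroup.mem_iInf.1 hw (g' * g) : ρ g' (ρ g w) ∈ W)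
  · exact fun g hg w hw => hg w (by simpa using AddSubgroup.mem_iInf.1 hw 1)

open scoped IsMulCommutative in
theorem lemR {B : Subgroup G} [B.Normal] (hB : ∀ a ∈ B, ∀ b ∈ B, ρ a * ρ b = ρ b * ρ a)
    {r s : Module.End ℤ N} (hr : ∀ g, Commute r (ρ g)) (hs : ∀ g, Commute s (ρ g))
    (hrs : Commute r s) {v : N} (hv : (r * s) v ≠ 0) :
    ∃ W : AddSubgroup N, (∀ g, ∀ w ∈ W, ρ g w ∈ W) ∧ ((∃ w ∈ W, r w ≠ 0) ∨ ∃ w ∈ W, s w ≠ 0) ∧
      (ct ρ W).relIndex B ≤ Nat.card N := by
  have : Finite (Module.End ℤ N) := Finite.of_injective _ DFunLike.coe_injective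
  have := Subring.isMulCommutative_closure (s := insert r (insert s (ρ '' B))) (by
    rintro _ (rfl | rfl | ⟨a, ha, rfl⟩) _ (rfl | rfl | ⟨b, hb, rfl⟩)
    exacts [rfl, hrs, hr b, hrs.symm, rfl, hs b, (hr a).symm, (hs a).symm, hB a ha b hb])
  obtain ⟨M, h1, h2⟩ := cyc ρ (Subring.closure (insert r (insert s (ρ '' B)))).subtype B
    (fun b hb => ⟨⟨ρ b, Subring.subset_closure (Or.inr (Or.inr ⟨b, hb, rfl⟩))⟩, rfl⟩) v
  obtain ⟨W, h3, h4, h5⟩ := greedy ρ h1
  refine ⟨W, h3, ?_, h5⟩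
  by_contra h
  push Not at h
  exact hv (h2 ⟨r, Subring.subset_closure (Or.inl rfl)⟩
    ⟨s, Subring.subset_closure (Or.inr (Or.inl rfl))⟩ (fun m hm => h.1 m (h4 hm))
    fun m hm => h.2 m (h4 hm))

/-- The product of the operators `ρ z - 1` along a list. -/
def op (l : List G) : Module.End ℤ N := (l.map fun z => ρ z - 1).prod

/-- All products of `j` operators `ρ z - 1` with `z ∈ Z` kill `W`. -/
def Kl (Z : Subgroup G) (j : ℕ) (W : AddSubgroup N) : Prop :=
  ∀ l : List G, l.length = j → (∀ z ∈ l, z ∈ Z) → ∀ w ∈ W, op ρ l w = 0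

omit [Finite G] [Finite N]

theorem op_append (l l' : List G) : op ρ (l ++ l') = op ρ l * op ρ l' := by simp [op]

theorem op_split (l : List G) (i : ℕ) : op ρ (l.take i) * op ρ (l.drop i) = op ρ l := by
  rw [← op_append, List.take_append_drop]

theorem op_comm {f : Module.End ℤ N} {l : List G} (h : ∀ z ∈ l, Commute f (ρ z)) :
    Commute f (op ρ l) := Commute.list_prod_right _ _ fun x hx => by
  obtain ⟨z, hz, rfl⟩ := List.mem_map.1 hx
  exact (h z hz).sub_right (Commute.one_right f)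

variable {ρ} {Z : Subgroup G} (hc : ∀ z ∈ Z, ∀ g, Commute (ρ g) (ρ z))
include hc

theorem op_rho {l : List G} (h : ∀ z ∈ l, z ∈ Z) (g : G) : Commute (op ρ l) (ρ g) :=
  (op_comm ρ fun z hz => hc z (h z hz) g).symm

theorem op_op {l : List G} (h : ∀ z ∈ l, z ∈ Z) (l' : List G) : Commute (op ρ l) (op ρ l') :=
  op_comm ρ fun z _ => op_rho hc h z

theorem layer [Finite N] {s : ℕ} {u : Module.End ℤ N} (hu : Kl ρ Z s u.toAddMonoidHom.range)
    (a : ℕ) : ∀ p q : List G, (∀ z ∈ q, z ∈ Z) → op ρ q * op ρ p = u → a * s ≤ q.length →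
      Nat.card u.toAddMonoidHom.range ^ (a + 1) ≤ Nat.card (op ρ p).toAddMonoidHom.range := by
  have h0 : ∀ p q : List G, (∀ z ∈ q, z ∈ Z) → op ρ q * op ρ p = u →
      u.toAddMonoidHom.range ≤ (op ρ p).toAddMonoidHom.range := fun p q hq e => by
    rintro _ ⟨x, rfl⟩
    exact ⟨op ρ q x, by rw [← e, (op_op hc hq p).eq]; rfl⟩
  induction a with
  | zero => exact fun p q hq e _ => (pow_one _).trans_le (AddSubgroup.card_le_of_le (h0 p q hq e))
  | succ a ih =>
    intro p q hq e hl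
    have h1 : ∀ z ∈ q.take s, z ∈ Z := fun z hz => hq z (List.mem_of_mem_take hz)
    have h2 := ih (q.take s ++ p) (q.drop s) (fun z hz => hq z (List.mem_of_mem_drop hz))
      (by rw [op_append, ← mul_assoc, ← (op_op hc h1 _).eq, op_split, e])
      (by rw [List.length_drop]; exact Nat.le_sub_of_add_le ((Nat.succ_mul a s).ge.trans hl))
    rw [← card_rel (op ρ (q.take s)).toAddMonoidHom.ker (op ρ p).toAddMonoidHom.range,
      AddSubgroup.relIndex_ker, AddMonoidHom.map_range, pow_succ]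
    rw [op_append] at h2
    refine Nat.mul_le_mul h2 (AddSubgroup.card_le_of_le (le_inf (fun w hw => ?_) (h0 p q hq e)))
    exact hu _ (List.length_take_of_le ((Nat.le_add_left _ _).trans
      ((Nat.succ_mul a s).ge.trans hl))) h1 w hw

theorem layers [Finite N] (h1 : ∃ L, Kl ρ Z L ⊤) {r s : ℕ} (h2 : ¬ Kl ρ Z ((r + 1) * (s + 1)) ⊤) :
    ∃ E : AddSubgroup N, (∀ g, ∀ w ∈ E, ρ g w ∈ E) ∧ ¬ Kl ρ Z s E ∧
      Nat.card E ^ (r + 1) ≤ Nat.card N := by
  classical
  obtain ⟨L, hL, h4⟩ : ∃ L, Kl ρ Z L ⊤ ∧ ∀ m < L, ¬ Kl ρ Z m ⊤ :=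
    ⟨_, Nat.find_spec h1, fun m => Nat.find_min h1⟩
  have h3 : (r + 1) * (s + 1) < L := by
    by_contra h
    refine h2 fun l hl hz w hw => ?_
    rw [← op_split ρ l L]
    exact hL _ (List.length_take_of_le (by omega))
      (fun z h => hz z (List.mem_of_mem_take h)) _ trivial
  replace h4 := h4 (L - 1) (by omega)
  simp only [Kl, not_forall] at h4
  obtain ⟨l, hl, hz, w, -, hw⟩ := h4
  have h5 : ∀ z ∈ l.drop s, z ∈ Z := fun z h => hz z (List.mem_of_mem_drop h)
  rw [Nat.succ_mul] at h3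
  refine ⟨(op ρ (l.drop s)).toAddMonoidHom.range, ?_, fun h => hw ?_, ?_⟩
  · rintro g _ ⟨x, rfl⟩
    exact ⟨ρ g x, DFunLike.congr_fun (op_rho hc h5 g).eq x⟩
  · rw [← op_split ρ l s]
    exact h _ (List.length_take_of_le (by omega)) (fun z h => hz z (List.mem_of_mem_take h)) _
      ⟨w, rfl⟩
  · refine (layer hc (s := s + 1) ?_ r [] (l.drop s) h5 (mul_one _)
      (by rw [List.length_drop]; omega)).trans (AddSubgroup.card_le_card_addGroup _)
    rintro l' hl' hz' _ ⟨x, rfl⟩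
    exact (DFunLike.congr_fun (op_append ρ l' _) x).symm.trans (hL _
      (by rw [List.length_append, List.length_drop]; omega)
      (List.forall_mem_append.2 ⟨hz', h5⟩) x trivial)

theorem halve [Finite G] [Finite N] {B : Subgroup G} [B.Normal]
    (hB : ∀ a ∈ B, ∀ b ∈ B, ρ a * ρ b = ρ b * ρ a) {t : ℕ} (h : ¬ Kl ρ Z (t + t) ⊤) :
    ∃ W : AddSubgroup N, (∀ g, ∀ w ∈ W, ρ g w ∈ W) ∧ ¬ Kl ρ Z t W ∧
      (ct ρ W).relIndex B ≤ Nat.card N := by
  simp only [Kl, not_forall] at h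
  obtain ⟨l, hl, hz, v, -, hv⟩ := h
  have h1 : ∀ z ∈ l.take t, z ∈ Z := fun z h => hz z (List.mem_of_mem_take h)
  have h2 : ∀ z ∈ l.drop t, z ∈ Z := fun z h => hz z (List.mem_of_mem_drop h)
  obtain ⟨W, h3, h4, h5⟩ := lemR ρ hB (op_rho hc h1) (op_rho hc h2) (op_op hc h1 _)
    (v := v) (by rwa [op_split])
  refine ⟨W, h3, fun h => ?_, h5⟩
  rcases h4 with ⟨w, hw, e⟩ | ⟨w, hw, e⟩
  · exact e (h _ (List.length_take_of_le (by omega)) h1 w hw)
  · exact e (h _ (by rw [List.length_drop]; omega) h2 w hw)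

end Pool.Agent.P.MP_5e916a_al.DL
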